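import Pool.Agent.Lib.MP_7903c7_al.RF.Contr

set_option autoImplicit false

/-!
Amplitudes of loops for an idempotent over a group ring with coefficients in an arbitrary ring
with a trace.
-/

namespace Pool.Agent.Lib.MP_7903c7_al.TQ

open Finset Pool.Agent.Lib.MP_7903c7_al.RF
open scoped Classical Pointwise

variable {G B Λ : Type} [Group G] [Ring B] [CommRing Λ]

/-- An idempotent of a group ring, a trace on the coefficients, an element and a finite index
subgroup of its centraliser. -/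
structure Dat (G B Λ : Type) [Group G] [Ring B] [CommRing Λ] where
  g : G
  C : Subgroup G
  t : B →+ Λ
  E : G → B
  U : Finset G
  tc : ∀ a b, t (a * b) = t (b * a)
  gC : g ∈ C
  comm : ∀ c ∈ C, c * g = g * c
  idx : C.relIndex (Subgroup.centralizer {g}) ≠ 0
  supp : ∀ h, h ∉ U → E h = 0
  idem : ∀ h, ∑ u ∈ U, E u * E (u⁻¹ * h) = E h

/-- The kernel of the idempotent or of the identity. -/
noncomputable def kap (E : G → B) (b : Prop) (h : G) : B :=
  if b then E h else if h = 1 then 1 else 0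

/-- The amplitude of a loop. -/
noncomputable def amp (t : B →+ Λ) (E : G → B) (M : ℕ) (b : ℤ → Prop) (x : ℤ → G) : Λ :=
  t ((List.range M).map fun i : ℕ => kap E (b i) ((x i)⁻¹ * x (i + 1))).prod

/-- The sum over the classes of loops, weighted by the amplitudes. -/
noncomputable def Dat.int (d : Dat G B Λ) {A : Type} [AddCommGroup A] [Module Λ A] (M : ℕ)
    (b : ℤ → Prop) (f : (ℤ → G) → A) : A :=
  ∑ᶠ q : Quotient (lpS d.g d.C M), amp d.t d.E M b q.out.1 • f q.out.1

/-- The trace of the idempotent on the class of `g`. -/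
noncomputable def Dat.tr (d : Dat G B Λ) : Λ :=
  ∑ h ∈ d.U.filter fun h => IsConj h d.g, d.t (d.E h)

namespace Anch

open Pool.Agent.Lib.MP_7903c7_al.RF.Anch

theorem fac_ne {t : B →+ Λ} {E : G → B} {M : ℕ} {b : ℤ → Prop} {x : ℤ → G}
    (h : amp t E M b x ≠ 0) (i : ℕ) (hi : i < M) : kap E (b i) ((x i)⁻¹ * x (i + 1)) ≠ 0 := by
  intro h0
  apply h
  unfold amp
  rw [List.prod_eq_zero, map_zero]
  exact List.mem_map.2 ⟨i, List.mem_range.2 hi, h0⟩

/-- The step of a class of loops with one step. -/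
noncomputable def st (d : Dat G B Λ) (q : Quotient (lpS d.g d.C 1)) : G :=
  (q.out.1 0)⁻¹ * d.g * q.out.1 0

theorem st_mk (d : Dat G B Λ) (x : {x : ℤ → G // IsLoop d.g 1 x}) :
    st d (Quotient.mk _ x) = (x.1 0)⁻¹ * d.g * x.1 0 := by
  obtain ⟨c, hc, e⟩ := Quotient.mk_out (s := lpS d.g d.C 1) x
  rw [st, e 0]
  generalize (Quotient.mk (lpS d.g d.C 1) x).out.1 0 = y
  calc y⁻¹ * d.g * y = y⁻¹ * c⁻¹ * (c * d.g) * y := by group
    _ = _ := by rw [d.comm c hc]; group

theorem card_fib (d : Dat G B Λ) (y : G) :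
    Nat.card {q : Quotient (lpS d.g d.C 1) // st d q = y⁻¹ * d.g * y} =
      d.C.relIndex (Subgroup.centralizer {d.g}) := by
  set Z := Subgroup.centralizer ({d.g} : Set G) with hZ
  have hz : ∀ z : Z, (z : G) * d.g = d.g * z := fun z =>
    Subgroup.mem_centralizer_singleton_iff.1 z.2
  symm
  refine Nat.card_congr (Equiv.ofBijective (fun a : Z ⧸ d.C.subgroupOf Z =>
    (⟨Quotient.mk _ (RF.Anch.lp d.g (((a.out : Z) : G)⁻¹ * y)), ?_⟩ :
      {q : Quotient (lpS d.g d.C 1) // st d q = y⁻¹ * d.g * y})) ⟨?_, ?_⟩)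
  · rw [st_mk]
    simp only [RF.Anch.lp, zpow_zero, one_mul]
    calc _ = y⁻¹ * (((a.out : Z) : G) * d.g) * (((a.out : Z) : G)⁻¹ * y) := by group
      _ = _ := by rw [hz]; group
  · intro a a' e
    obtain ⟨c, hc, e'⟩ := Quotient.exact (congrArg Subtype.val e)
    have e0 := e' 0
    simp only [RF.Anch.lp, zpow_zero, one_mul] at e0
    rw [← a.out_eq', ← a'.out_eq']
    refine QuotientGroup.eq.2 ?_
    show ((a.out : Z) : G)⁻¹ * ((a'.out : Z) : G) ∈ d.C
    have : ((a.out : Z) : G)⁻¹ * ((a'.out : Z) : G) = c⁻¹ := by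
      calc _ = ((a.out : Z) : G)⁻¹ * y * (((a'.out : Z) : G)⁻¹ * y)⁻¹ := by group
        _ = _ := by rw [e0]; group
    rw [this]
    exact d.C.inv_mem hc
  · rintro ⟨q, hq⟩
    have hm : y * (q.out.1 0)⁻¹ ∈ Z := by
      rw [hZ, Subgroup.mem_centralizer_singleton_iff]
      calc y * (q.out.1 0)⁻¹ * d.g = y * st d q * (q.out.1 0)⁻¹ := by rw [st]; group
        _ = _ := by rw [hq]; group
    obtain ⟨c, hc⟩ := QuotientGroup.mk_out_eq_mul (d.C.subgroupOf Z) ⟨_, hm⟩
    refine ⟨QuotientGroup.mk ⟨_, hm⟩, Subtype.ext (Eq.trans (Quotient.sound ?_) q.out_eq)⟩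
    refine ⟨((c : Z) : G), c.2, congrFun (loop_ext one_pos q.out.2
      (loop_mul (hz c) (RF.Anch.lp d.g _).2) fun i hi => ?_)⟩
    obtain rfl : i = 0 := by omega
    rw [hc]
    simp [RF.Anch.lp, mul_assoc]

end Anch

theorem int_finite (d : Dat G B Λ) (M : ℕ) (hM : 0 < M) (b : ℤ → Prop) :
    {q : Quotient (lpS d.g d.C M) | amp d.t d.E M b q.out.1 ≠ 0}.Finite := by
  let U : Finset G := insert 1 d.U
  obtain ⟨Y, hY, -⟩ := anchors d.g d.C d.comm d.idx (U ^ M)
  have hF : {x : {x : ℤ → G // IsLoop d.g M x} |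
      ∀ i : ℕ, i < M → x.1 i ∈ (Y : Set G) * (U : Set G) ^ i}.Finite := by
    refine Set.Finite.of_finite_image (f := fun x (i : Fin M) => x.1 (i : ℕ)) ?_ ?_
    · refine (Set.Finite.pi' (t := fun i : Fin M => (Y : Set G) * (U : Set G) ^ (i : ℕ))
        fun i => ?_).subset ?_
      · rw [← coe_pow, ← coe_mul]
        exact finite_toSet _
      · rintro _ ⟨x, hx, rfl⟩ i
        exact hx i i.2
    · intro x _ y _ e
      exact Subtype.ext (Anch.loop_ext hM x.2 y.2 fun i hi => congrFun e ⟨i, hi⟩)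
  refine (hF.image (Quotient.mk _)).subset fun q hq => ?_
  have hs : ∀ i : ℕ, i < M → (q.out.1 i)⁻¹ * q.out.1 (i + 1) ∈ (U : Set G) := fun i hi => by
    have := Anch.fac_ne hq i hi
    unfold kap at this
    by_contra hn
    simp only [U, coe_insert, Set.mem_insert_iff, mem_coe, not_or] at hn
    rw [d.supp _ hn.2, if_neg hn.1, ite_self] at this
    exact this rfl
  have h0 : (q.out.1 0)⁻¹ * d.g * q.out.1 0 ∈ U ^ M := by
    have h1 := Anch.path_mem hs M le_rfl
    have h2 := q.out.2 0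
    rw [zero_add] at h2
    rw [h2, ← mul_assoc, ← coe_pow] at h1
    exact h1
  obtain ⟨c, hc, z, hz, e⟩ := hY _ h0
  refine ⟨⟨fun i => c⁻¹ * q.out.1 i, Anch.loop_mul (d.comm _ (d.C.inv_mem hc)) q.out.2⟩,
    fun i hi => ⟨z, hz, _, Anch.path_mem hs i hi.le, ?_⟩, ?_⟩
  · show z * ((q.out.1 0)⁻¹ * q.out.1 i) = c⁻¹ * q.out.1 i
    rw [e]
    group
  · refine Eq.trans (Quotient.sound ?_) q.out_eq
    exact ⟨c, hc, fun i => (mul_inv_cancel_left _ _).symm⟩

theorem int_one (d : Dat G B Λ) :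
    d.int 1 (fun _ => True) (fun _ => (1 : Λ)) =
      (d.C.relIndex (Subgroup.centralizer {d.g}) : Λ) * d.tr := by
  have ha : ∀ q : Quotient (lpS d.g d.C 1),
      amp d.t d.E 1 (fun _ => True) q.out.1 • (1 : Λ) = d.t (d.E (Anch.st d q)) := fun q => by
    have h2 := q.out.2 0
    simp only [Nat.cast_one, zero_add] at h2
    simp [amp, kap, Anch.st, h2, mul_assoc]
  have hfin : ∀ y : G, {q | Anch.st d q = y⁻¹ * d.g * y}.Finite := fun y =>
    Nat.finite_of_card_ne_zero (by
      have := Anch.card_fib d y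
      exact this ▸ d.idx)
  have hfin' : ∀ h : G, {q | Anch.st d q = h}.Finite := fun h => by
    by_cases he : ∃ q, Anch.st d q = h
    · obtain ⟨q, rfl⟩ := he
      exact hfin _
    · exact Set.finite_empty.subset fun q hq => he ⟨q, hq⟩
  have hU : {q | Anch.st d q ∈ d.U}.Finite :=
    (d.U.finite_toSet.biUnion fun h _ => hfin' h).subset fun q hq =>
      Set.mem_biUnion (x := Anch.st d q) hq rfl
  unfold Dat.int Dat.tr
  simp only [ha]
  rw [finsum_eq_sum_of_support_subset (s := hU.toFinset), ← sum_fiberwise_of_maps_to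
    (t := d.U.filter fun h => IsConj h d.g) (g := Anch.st d), mul_sum]
  · refine sum_congr rfl fun h hh => ?_
    obtain ⟨hh1, hh2⟩ := mem_filter.1 hh
    obtain ⟨y, hy⟩ := isConj_iff.1 hh2
    have e : h = y⁻¹ * d.g * y := by rw [← hy]; group
    rw [sum_congr rfl (g := fun _ => d.t (d.E h)) fun q hq => by
      rw [(mem_filter.1 hq).2], sum_const, nsmul_eq_mul, ← Anch.card_fib d y, ← e]
    congr 2
    rw [← Nat.card_eq_finsetCard]
    refine Nat.card_congr (Equiv.subtypeEquivRight fun q => ?_)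
    simp only [mem_filter, Set.Finite.mem_toFinset, Set.mem_ofPred_eq]
    exact ⟨fun h => h.2, fun h => ⟨h ▸ hh1, h⟩⟩
  · intro q hq
    refine mem_filter.2 ⟨by simpa using hq, isConj_iff.2 ⟨q.out.1 0, ?_⟩⟩
    rw [Anch.st]
    group
  · intro q hq
    by_contra hn
    apply hq
    show d.t (d.E (Anch.st d q)) = 0
    rw [d.supp _ (by simpa using hn), map_zero]

theorem amp_len (d : Dat G B Λ) (S : Finset G) (hS : d.U ⊆ S)
    (M m : ℕ) (hM : 0 < M) (b : ℤ → Prop) (hb : ∀ i, b (i + M) ↔ b i)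
    (hm : ((range M).filter fun i : ℕ => b i).card ≤ m) (x : ℤ → G) (hx : IsLoop d.g M x)
    (hne : amp d.t d.E M b x ≠ 0) :
    (∀ s, ¬ b s → x (s + 1) = x s) ∧ ∃ ℓ, Len S M m x ℓ := by
  have hA : ∀ s, ¬ b s → (x s)⁻¹ * x (s + 1) = 1 := by
    refine Anch.red hM _ (fun t => by rw [hb, Anch.step_per hx]) fun i hi hn => ?_
    have := Anch.fac_ne hne i hi
    unfold kap at this
    by_contra h0
    rw [if_neg hn, if_neg h0] at this
    exact this rfl
  refine ⟨fun s hs => (inv_mul_eq_one.1 (hA s hs)).symm, ?_⟩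
  refine ⟨fun t => if b t then 1 else 0, fun t => ?_, ?_, ?_⟩
  · simp only [hb]
  · refine Anch.red hM _ (fun t => by simp only [hb, Anch.step_per hx]) fun i hi => ?_
    by_cases hbi : b i
    · have := Anch.fac_ne hne i hi
      unfold kap at this
      rw [if_pos hbi] at this
      simp only [if_pos hbi, pow_one]
      by_contra hn
      exact this (d.supp _ fun h => hn (hS h))
    · simp [hbi, hA i hbi]
  · rw [card_filter] at hm
    exact hm

namespace Contr

open Pool.Agent.Lib.MP_7903c7_al.RF.Contr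

theorem amp_mul (t : B →+ Λ) (E : G → B) (M : ℕ) (b : ℤ → Prop) (c : G) (x : ℤ → G) :
    amp t E M b (fun i => c * x i) = amp t E M b x := by
  simp only [amp, mul_inv_rev, mul_assoc, inv_mul_cancel_left]

/-- The contraction formula for one reparametrisation. -/
def Pr (d : Dat G B Λ) (A : Type) [AddCommGroup A] [Module Λ A] (M M' : ℕ) (ι : ℤ → ℤ) : Prop :=
  ∀ b : ℤ → Prop, (∀ i, b (i + M) ↔ b i) → ∀ f : (ℤ → G) → A,
    (∀ x, IsLoop d.g M' x → ∀ c ∈ d.C, f (fun i => c * x i) = f x) →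
    d.int M b (fun x => f (x ∘ ι)) = d.int M' (psh ι b) f

variable {d : Dat G B Λ} {A : Type} [AddCommGroup A] [Module Λ A]

theorem Pr.comp {M M1 M' : ℕ} {ι κ : ℤ → ℤ} (h1 : Pr d A M M1 ι) (h2 : Pr d A M1 M' κ)
    (hι : StrictMono ι) (hp : ∀ i, ι (i + M1) = ι i + M) (hk : ∀ i, κ (i + M') = κ i + M1) :
    Pr d A M M' (ι ∘ κ) := fun b hb f hf => by
  rw [← psh_comp hι, ← h2 _ (psh_per hp hb) f hf]
  exact h1 b hb (fun y => f (y ∘ κ)) fun x hx c hc => hf _ (loop_comp hk hx) c hc

theorem pr_of {M M' : ℕ} (hM : 0 < M) {ι : ℤ → ℤ} (hp : ∀ i, ι (i + M') = ι i + M)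
    (h : ∀ b : ℤ → Prop, (∀ i, b (i + M) ↔ b i) → ∀ y, IsLoop d.g M' y →
      ∃ (Z : Type) (σ : Z → {x : ℤ → G // IsLoop d.g M x}), Function.Injective σ ∧
        (∀ x, x ∈ Set.range σ ↔ x.1 ∘ ι = y) ∧
        amp d.t d.E M' (psh ι b) y = ∑ᶠ z, amp d.t d.E M b (σ z).1) : Pr d A M M' ι := by
  intro b hb f hf
  let π : Quotient (lpS d.g d.C M) → Quotient (lpS d.g d.C M') :=
    Quotient.map (fun x => ⟨x.1 ∘ ι, loop_comp hp x.2⟩) fun x y ⟨c, hc, e⟩ =>
      ⟨c, hc, fun i => e (ι i)⟩
  have hfin : (Function.support fun q : Quotient (lpS d.g d.C M) =>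
    amp d.t d.E M b q.out.1).Finite := int_finite d M hM b
  have out : ∀ (N : ℕ) (x : {x : ℤ → G // IsLoop d.g N x}), ∃ c ∈ d.C,
      (Quotient.mk (lpS d.g d.C N) x).out.1 = fun i => c * x.1 i := fun N x => by
    obtain ⟨c, hc, e⟩ := (lpS d.g d.C N).symm (Quotient.mk_out (s := lpS d.g d.C N) x)
    exact ⟨c, hc, funext e⟩
  have key : ∀ q', amp d.t d.E M' (psh ι b) q'.out.1 =
      ∑ q ∈ hfin.toFinset with π q = q', amp d.t d.E M b q.out.1 := fun q' => by
    obtain ⟨Z, σ, h1, h2, h3⟩ := h b hb _ q'.out.2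
    rw [h3, ← finsum_mem_univ]
    refine (finsum_mem_eq_of_bijOn (t := {q | π q = q'}) (g := fun q => amp d.t d.E M b q.out.1)
      (fun z => Quotient.mk _ (σ z))
      ⟨fun z _ => ?_, fun z _ z' _ e => h1 ?_, fun q hq => ?_⟩ fun z _ => ?_).trans
      (finsum_mem_eq_sum_of_inter_support_eq _ (by ext q; simp [and_comm]))
    · exact (congrArg (Quotient.mk _) (Subtype.ext ((h2 _).1 ⟨z, rfl⟩))).trans q'.out_eq
    · obtain ⟨c, -, e⟩ := Quotient.exact e
      have e0 := e (ι 0)
      rw [show (σ z').1 (ι 0) = (σ z).1 (ι 0) from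
        congrFun (((h2 _).1 ⟨z', rfl⟩).trans ((h2 _).1 ⟨z, rfl⟩).symm) 0, right_eq_mul] at e0
      exact Subtype.ext (funext fun i => by rw [e, e0, one_mul])
    · induction q using Quotient.inductionOn with
      | h x =>
        obtain ⟨c, hc, e⟩ := Quotient.exact ((show π _ = q' from hq).trans q'.out_eq.symm)
        obtain ⟨z, hz⟩ := (h2 ⟨fun i => c * x.1 i, fun t => by
          simp only [x.2 t, ← mul_assoc, d.comm c hc]⟩).2 (funext fun i => (e i).symm)
        exact ⟨z, trivial,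
          (Quotient.sound (s := lpS d.g d.C M) (a := x) ⟨c, hc, fun i => by rw [hz]⟩).symm⟩
    · obtain ⟨c, -, e⟩ := out M (σ z)
      rw [e, amp_mul]
  unfold Dat.int
  rw [finsum_eq_sum_of_support_subset (s := hfin.toFinset) _ fun q hq => by
      simpa using left_ne_zero_of_smul hq,
    finsum_eq_sum_of_support_subset (s := hfin.toFinset.image π) _ fun q' hq => by
      have := left_ne_zero_of_smul hq
      rw [key] at this
      obtain ⟨q, h1, -⟩ := exists_ne_zero_of_sum_ne_zero this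
      exact mem_coe.2 (mem_image.2 ⟨q, (mem_filter.1 h1).1, (mem_filter.1 h1).2⟩),
    ← sum_fiberwise_of_maps_to fun q hq => mem_image_of_mem π hq]
  refine sum_congr rfl fun q' _ => ?_
  rw [key, sum_smul]
  refine sum_congr rfl fun q hq => ?_
  obtain ⟨c, hc, e⟩ := out M' ⟨q.out.1 ∘ ι, loop_comp hp q.out.2⟩
  have e' : π q = Quotient.mk _ ⟨q.out.1 ∘ ι, loop_comp hp q.out.2⟩ := by
    conv_lhs => rw [← q.out_eq]
    rfl
  rw [← (mem_filter.1 hq).2, e', e, hf _ (loop_comp hp q.out.2) c hc]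

theorem amp_one (t : B →+ Λ) (ht : ∀ a b, t (a * b) = t (b * a)) (E : G → B) {g : G} {M : ℕ} {b : ℤ → Prop}
    (hb : ∀ i, b (i + M) ↔ b i) {x : ℤ → G} (hx : IsLoop g M x) :
    amp t E M (fun i => b (i + 1)) (fun i => x (i + 1)) = amp t E M b x := by
  cases M with
  | zero => rfl
  | succ m =>
    unfold amp
    conv_rhs => rw [List.range_succ_eq_map, List.map_cons, List.prod_cons, ht]
    rw [List.range_succ, List.map_append, List.prod_append, List.map_map]
    have e1 := hb 0
    have e2 := hx 0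
    have e3 := hx 1
    push_cast at e1 e2 e3
    rw [zero_add] at e1 e2
    rw [add_comm] at e3
    simp only [List.map_cons, List.map_nil, List.prod_cons, List.prod_nil, mul_one, propext e1,
      e2, e3, mul_inv_rev, mul_assoc, inv_mul_cancel_left, Nat.cast_zero, zero_add]
    rfl

theorem amp_shift (t : B →+ Λ) (ht : ∀ a b, t (a * b) = t (b * a)) (E : G → B) {g : G} {M : ℕ} {b : ℤ → Prop}
    (hb : ∀ i, b (i + M) ↔ b i) {x : ℤ → G} (hx : IsLoop g M x) (k : ℤ) :
    amp t E M (fun i => b (i + k)) (fun i => x (i + k)) = amp t E M b x := by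
  have st : ∀ k : ℤ, amp t E M (fun i => b (i + (k + 1))) (fun i => x (i + (k + 1))) =
      amp t E M (fun i => b (i + k)) (fun i => x (i + k)) := fun k => by
    rw [← amp_one t ht E (g := g) (b := fun i => b (i + k)) (x := fun i => x (i + k))
      (fun i => by rw [add_right_comm, hb]) fun i => by
      simp only [add_right_comm i (M : ℤ) k, hx _]]
    simp only [add_assoc, add_comm k 1]
  induction k using Int.induction_on with
  | zero => simp only [add_zero]
  | succ n ih => rw [st, ih]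
  | pred n ih => rw [← st, sub_add_cancel, ih]

theorem pr_shift {M : ℕ} (hM : 0 < M) (k : ℤ) : Pr d A M M (· + k) := by
  have hy' : ∀ y, IsLoop d.g M y → IsLoop d.g M fun i => y (i - k) := fun y hy t =>
    (congrArg y (add_sub_right_comm _ _ _)).trans (hy _)
  refine pr_of hM (fun i => add_right_comm _ _ _) fun b hb y hy =>
    ⟨Unit, fun _ => ⟨fun i => y (i - k), hy' y hy⟩,
      fun _ _ _ => rfl, fun x => ⟨?_, ?_⟩, ?_⟩
  · rintro ⟨_, rfl⟩
    exact funext fun i => by simp
  · rintro rfl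
    exact ⟨(), Subtype.ext (funext fun i => by simp)⟩
  · rw [finsum_unique, ← amp_shift d.t d.tc d.E hb (hy' y hy) k]
    simp only [add_sub_cancel_right]
    congr 1
    funext i
    simp only [psh]
    exact propext ⟨fun ⟨s, h1, h2, h3⟩ => by rwa [show i + k = s by omega],
      fun h => ⟨_, le_rfl, by omega, h⟩⟩

theorem kap_zero (b : Prop) {h : G} (hh : h ∉ insert 1 d.U) : kap d.E b h = 0 := by
  rw [mem_insert, not_or] at hh
  unfold kap
  rw [d.supp h hh.2, if_neg hh.1, ite_self]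

theorem kap_conv (b b' : Prop) (h : G) :
    ∑ w ∈ insert 1 d.U, kap d.E b w * kap d.E b' (w⁻¹ * h) = kap d.E (b ∨ b') h := by
  by_cases hb : b
  · by_cases hb' : b'
    · simp only [kap, hb, hb', if_true, true_or]
      rw [← d.idem h]
      exact (sum_subset (subset_insert _ _) fun w _ hw => by rw [d.supp w hw, zero_mul]).symm
    · rw [sum_eq_single h]
      · simp [kap, hb, hb']
      · intro w _ hw
        simp [kap, hb', inv_mul_eq_one, hw]
      · intro hw
        rw [kap_zero b hw, zero_mul]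
  · rw [sum_eq_single 1]
    · simp [kap, hb]
    · intro w _ hw
      simp [kap, hb, hw]
    · intro hw
      exact absurd (mem_insert_self _ _) hw

theorem pr_skip (n : ℕ) : Pr d A (n + 1 + 1) (n + 1) fun i => i + i / (n + 1 : ℕ) := by
  have hm : 0 < n + 1 := n.succ_pos
  have sm : ∀ i : ℤ, 0 ≤ i → i < n + 1 + 1 → i / (n + 1 + 1 : ℕ) = 0 ∧ i % (n + 1 + 1 : ℕ) = i :=
    fun i h1 h2 => ⟨Int.ediv_eq_zero_of_lt h1 (by omega), Int.emod_eq_of_lt h1 (by omega)⟩
  have sm' : ∀ i : ℤ, 0 ≤ i → i < n + 1 → i / (n + 1 : ℕ) = 0 :=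
    fun i h1 h2 => Int.ediv_eq_zero_of_lt h1 (by omega)
  refine pr_of (Nat.succ_pos _) (skip_per hm) fun b hb y hy => ?_
  obtain ⟨σ, hσ⟩ : ∃ σ : G → {x : ℤ → G // IsLoop d.g (n + 1 + 1) x}, ∀ z t, (σ z).1 t =
      d.g ^ (t / (n + 1 + 1 : ℕ)) *
        if t % (n + 1 + 1 : ℕ) = n + 1 then y n * z else y (t % (n + 1 + 1 : ℕ)) :=
    ⟨fun z => ⟨_, fun t => by
      rw [Int.add_ediv_of_dvd_right (dvd_refl _), Int.ediv_self (by omega), Int.add_emod_right,
        add_comm, zpow_one_add, mul_assoc]⟩, fun _ _ => rfl⟩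
  have s1 : ∀ z (i : ℤ), 0 ≤ i → i < n + 1 → (σ z).1 i = y i := fun z i h1 h2 => by
    rw [hσ, (sm i h1 (by omega)).1, (sm i h1 (by omega)).2, if_neg h2.ne, zpow_zero, one_mul]
  have s2 : ∀ z, (σ z).1 (n + 1) = y n * z := fun z => by
    rw [hσ, (sm _ (by omega) (by omega)).1, (sm _ (by omega) (by omega)).2, if_pos rfl,
      zpow_zero, one_mul]
  have s3 : ∀ z, (σ z).1 (n + 1 + 1) = y (n + 1) := fun z => by
    have e1 := (σ z).2 0
    have e2 := hy 0
    push_cast at e1 e2
    rw [zero_add] at e1 e2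
    rw [e1, e2, s1 z 0 le_rfl (by omega)]
  refine ⟨G, σ, fun z z' e => ?_, fun x => ⟨?_, fun e => ⟨(y n)⁻¹ * x.1 (n + 1), ?_⟩⟩, ?_⟩
  · exact mul_left_cancel ((s2 z).symm.trans (e ▸ s2 z'))
  · rintro ⟨z, rfl⟩
    funext i
    have := Int.emod_lt_of_pos i (show (0 : ℤ) < (n + 1 : ℕ) by omega)
    rw [Function.comp_apply, hσ, (skip_div hm i).1, (skip_div hm i).2, if_neg (by omega),
      ← loop_eq hy]
  · refine Subtype.ext (funext fun t => ?_)
    have h1 := Int.emod_nonneg t (show ((n + 1 + 1 : ℕ) : ℤ) ≠ 0 by omega)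
    have h2 := Int.emod_lt_of_pos t (show (0 : ℤ) < (n + 1 + 1 : ℕ) by omega)
    rw [hσ, loop_eq x.2 t]
    congr 1
    split_ifs with h
    · rw [mul_inv_cancel_left, h]
    · rw [← e, Function.comp_apply, sm' _ h1 (by omega), add_zero]
  · have hl : ∀ z, amp d.t d.E (n + 1 + 1) b (σ z).1 = d.t
        (((List.range n).map fun i : ℕ => kap d.E (b i) ((y i)⁻¹ * y (i + 1))).prod *
          (kap d.E (b n) z * kap d.E (b (n + 1)) (z⁻¹ * ((y n)⁻¹ * y (n + 1))))) := fun z => by
      unfold amp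
      rw [List.range_succ, List.range_succ, List.map_append, List.map_append, List.prod_append,
        List.prod_append, List.map_congr_left (g := fun i : ℕ =>
          kap d.E (b i) ((y i)⁻¹ * y (i + 1))) fun i hi => by
          have := List.mem_range.1 hi
          rw [s1 z i (by omega) (by omega), s1 z (i + 1) (by omega) (by omega)]]
      simp only [List.map_cons, List.map_nil, List.prod_cons, List.prod_nil, mul_one,
        Nat.cast_add, Nat.cast_one, s1 z n (by omega) (by omega), s2, s3, inv_mul_cancel_left,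
        mul_inv_rev, mul_assoc]
    simp only [hl]
    rw [finsum_eq_sum_of_support_subset (s := insert 1 d.U) _ fun z hz => by
        by_contra h
        exact hz (by simp only [kap_zero (b n) h, zero_mul, mul_zero, map_zero]),
      ← map_sum, ← mul_sum, kap_conv]
    unfold amp
    rw [List.range_succ, List.map_append, List.prod_append, List.map_congr_left
      (g := fun i : ℕ => kap d.E (b i) ((y i)⁻¹ * y (i + 1))) fun i hi => ?_]
    · simp only [List.map_cons, List.map_nil, List.prod_cons, List.prod_nil, mul_one]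
      congr 3
      simp only [psh]
      rw [sm' n (by omega) (by omega), show ((n : ℤ) + 1) / (n + 1 : ℕ) = 1 from
        Int.ediv_self (by omega)]
      refine propext ⟨fun ⟨s, h1, h2, h3⟩ => ?_, fun h => h.elim
        (fun h => ⟨_, by omega, by omega, h⟩) fun h => ⟨_, by omega, by omega, h⟩⟩
      by_cases e : s = n
      · exact Or.inl (e ▸ h3)
      · exact Or.inr (by rwa [show (n : ℤ) + 1 = s by omega])
    · have := List.mem_range.1 hi
      congr 1
      simp only [psh]
      rw [sm' i (by omega) (by omega), sm' (i + 1) (by omega) (by omega)]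
      exact propext ⟨fun ⟨s, h1, h2, h3⟩ => by rwa [show (i : ℤ) = s by omega],
        fun h => ⟨_, by omega, by omega, h⟩⟩

theorem pr_all (M' : ℕ) (hM' : 0 < M') (M : ℕ) : ∀ ι : ℤ → ℤ, StrictMono ι →
    (∀ i, ι (i + M') = ι i + M) → Pr d A M M' ι := by
  induction M using Nat.strong_induction_on with
  | h M ih =>
    intro ι hι hp
    have up : ∀ (i : ℤ) (n : ℕ), ι i + n ≤ ι (i + n) := fun i n => by
      induction n with
      | zero => simp
      | succ n h =>
        have := hι (show i + n < i + (n + 1 : ℕ) by omega)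
        omega
    by_cases hs : ∀ j, ι (j + 1) = ι j + 1
    · have e : ι = (· + ι 0) := funext fun i => by
        induction i using Int.induction_on with
        | zero => simp
        | succ n h => rw [hs, h]; ring
        | pred n h =>
          have := hs (-n - 1)
          rw [sub_add_cancel, h] at this
          linarith
      have e' : M' = M := by
        have := hp 0
        rw [congrFun e (0 + M')] at this
        omega
      rw [e', e]
      exact pr_shift (e' ▸ hM') _
    · obtain ⟨j, hj⟩ := not_forall.1 hs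
      have h1 := hι (lt_add_one j)
      obtain ⟨n, rfl⟩ : ∃ n, M = n + 1 + 1 := by
        have h2 := up (j + 1) (M' - 1)
        rw [show j + 1 + (M' - 1 : ℕ) = j + M' by omega, hp] at h2
        exact ⟨M - 2, by omega⟩
      obtain ⟨k, hk⟩ : ∃ k, k = ι j - n := ⟨_, rfl⟩
      have mono : StrictMono fun i : ℤ => i + i / (n + 1 : ℕ) := fun a c h =>
        add_lt_add_of_lt_of_le h (Int.ediv_le_ediv (by omega) h.le)
      have e : ι = (· + k) ∘ (fun i : ℤ => i + i / (n + 1 : ℕ)) ∘
          fun i => ι i - k - (ι i - k) / (n + 1 + 1 : ℕ) := funext fun i => by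
        have h2 := Int.emod_nonneg (ι i - k) (show ((n + 1 + 1 : ℕ) : ℤ) ≠ 0 by omega)
        have h3 := Int.emod_lt_of_pos (ι i - k) (show (0 : ℤ) < (n + 1 + 1 : ℕ) by omega)
        have h4 := Int.emod_add_mul_ediv (ι i - k) (n + 1 + 1 : ℕ)
        have h5 : (ι i - k) % (n + 1 + 1 : ℕ) ≠ n + 1 := fun h => by
          have h6 := per_mul hp (-((ι i - k) / (n + 1 + 1 : ℕ))) i
          have h7 : ι (i + M' * -((ι i - k) / (n + 1 + 1 : ℕ))) = ι j + 1 := by linarith
          have h8 := hι.lt_iff_lt.1 (h7.symm ▸ lt_add_one (ι j))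
          have h9 := hι.monotone (Int.add_one_le_of_lt h8)
          omega
        have h6 := ((Int.ediv_emod_unique (a := ι i - k - (ι i - k) / (n + 1 + 1 : ℕ))
          (b := (n + 1 : ℕ)) (r := (ι i - k) % (n + 1 + 1 : ℕ))
          (q := (ι i - k) / (n + 1 + 1 : ℕ)) (by omega)).2
          ⟨by push_cast at h4 ⊢; linarith, h2, by omega⟩).1
        simp only [Function.comp_apply, h6]
        ring
      have hκ : ∀ i, ι (i + M') - k - (ι (i + M') - k) / (n + 1 + 1 : ℕ) =
          ι i - k - (ι i - k) / (n + 1 + 1 : ℕ) + (n + 1 : ℕ) := fun i => by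
        rw [hp, add_sub_right_comm, Int.add_ediv_of_dvd_right (dvd_refl _),
          Int.ediv_self (by omega)]
        push_cast
        ring
      rw [e]
      refine (pr_shift (Nat.succ_pos _) k).comp ((pr_skip n).comp
        (ih _ (Nat.lt_succ_self _) _ (fun a c h => mono.lt_iff_lt.1 ?_) hκ) mono
        (skip_per n.succ_pos) hκ) (fun a c h => add_lt_add_left h k) (fun i => add_right_comm _ _ _)
        fun i => ?_
      · have := hι h
        rw [congrFun e a, congrFun e c] at this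
        exact lt_of_add_lt_add_right this
      · simp only [Function.comp_apply, hκ]
        exact skip_per n.succ_pos _

end Contr

theorem int_contract (d : Dat G B Λ) {A : Type} [AddCommGroup A] [Module Λ A] (M M' : ℕ)
    (hM' : 0 < M') (ι : ℤ → ℤ) (hι : StrictMono ι) (hp : ∀ i, ι (i + M') = ι i + M)
    (b : ℤ → Prop) (hb : ∀ i, b (i + M) ↔ b i) (f : (ℤ → G) → A)
    (hf : ∀ x, IsLoop d.g M' x → ∀ c ∈ d.C, f (fun i => c * x i) = f x) :
    d.int M b (fun x => f (x ∘ ι)) =
      d.int M' (fun i => ∃ s, ι i ≤ s ∧ s < ι (i + 1) ∧ b s) f :=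
  Contr.pr_all M' hM' M ι hι hp b hb f hf

end Pool.Agent.Lib.MP_7903c7_al.TQ
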