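import Pool.Agent.Lib.MP_7903c7_al.RF.Cut

set_option autoImplicit false

/-!
The cut lemma for integral chains with rational coefficients.
-/

namespace Pool.Agent.Lib.MP_7903c7_al.TQ

open Finset Pool.Agent.Lib.MP_7903c7_al.RF
open scoped Classical

section nat

variable {P Λ Λ' : Type} [CommRing Λ] [CommRing Λ']

/-- Change of coefficients. -/
noncomputable def mp (P : Type) (φ : Λ →+* Λ') : (List P →₀ Λ) →+ (List P →₀ Λ') :=
  Finsupp.mapRange.addMonoidHom φ.toAddMonoidHom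

theorem mp_apply (φ : Λ →+* Λ') (y : List P →₀ Λ) (l : List P) : mp P φ y l = φ (y l) := rfl

theorem mp_single (φ : Λ →+* Λ') (l : List P) (c : Λ) :
    mp P φ (Finsupp.single l c) = Finsupp.single l (φ c) := by
  simp [mp]

theorem mp_smul (φ : Λ →+* Λ') (c : Λ) (y : List P →₀ Λ) :
    mp P φ (c • y) = φ c • mp P φ y := by
  ext l
  simp [mp_apply]

theorem mp_supp (φ : Λ →+* Λ') (y : List P →₀ Λ) : (mp P φ y).support ⊆ y.support := by
  intro l hl
  rw [Finsupp.mem_support_iff] at hl ⊢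
  intro h
  exact hl (by rw [mp_apply, h, map_zero])

theorem bd_mp (φ : Λ →+* Λ') (y : List P →₀ Λ) :
    bd P Λ' (mp P φ y) = mp P φ (bd P Λ y) := by
  induction y using Finsupp.induction_linear with
  | zero => simp
  | add a b ha hb => simp only [map_add, ha, hb]
  | single l c =>
    rw [mp_single]
    unfold bd
    rw [Finsupp.linearCombination_single, Finsupp.linearCombination_single, mp_smul]
    split_ifs
    · simp
    · rw [map_sum]
      simp only [mp_single, map_pow, map_neg, map_one]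

theorem eps_mp (φ : Λ →+* Λ') (y : List P →₀ Λ) :
    eps P Λ' (mp P φ y) = φ (eps P Λ y) := by
  induction y using Finsupp.induction_linear with
  | zero => simp
  | add a b ha hb => simp only [map_add, ha, hb]
  | single l c =>
    rw [mp_single]
    unfold eps
    rw [Finsupp.linearCombination_single, Finsupp.linearCombination_single]
    split_ifs <;> simp

theorem tm_mp (φ : Λ →+* Λ') (T : P → P) (y : List P →₀ Λ) :
    tm Λ' T (mp P φ y) = mp P φ (tm Λ T y) := by
  induction y using Finsupp.induction_linear with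
  | zero => simp
  | add a b ha hb => simp only [map_add, ha, hb]
  | single l c =>
    rw [mp_single]
    unfold tm
    rw [Finsupp.lmapDomain_apply, Finsupp.lmapDomain_apply, Finsupp.mapDomain_single,
      Finsupp.mapDomain_single, mp_single]

theorem tm_pow_mp (φ : Λ →+* Λ') (T : P → P) (r : ℕ) (y : List P →₀ Λ) :
    (tm Λ' T ^ r) (mp P φ y) = mp P φ ((tm Λ T ^ r) y) := by
  induction r generalizing y with
  | zero => simp
  | succ r ih => rw [pow_succ, pow_succ, Module.End.mul_apply, Module.End.mul_apply, tm_mp, ih]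

theorem dd_mp (φ : Λ →+* Λ') (T : P → P) (N i : ℕ) (y : List P →₀ Λ) :
    dd (tm Λ' T) N i (mp P φ y) = mp P φ (dd (tm Λ T) N i y) := by
  unfold dd
  split_ifs
  · simp only [LinearMap.sum_apply, map_sum, tm_pow_mp]
  · simp only [LinearMap.sub_apply, map_sub, Module.End.one_apply, tm_mp]

end nat

theorem cutQ {P ι : Type} (T : P → P) (N : ℕ) (hN0 : 0 < N)
    (hT : ∀ v, T^[N] v = v) {p J : ℕ} (hp : p.Prime) (hN : p ^ J ∣ N)
    (s : Finset ι) (a : ι → ℕ) (w : ι → P → ℤ) (F : ι → P → ℂ)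
    (hw : ∀ i ∈ s, ∀ v, ¬ (p : ℤ) ^ (a i + 1) ∣ w i v)
    (hwT : ∀ i ∈ s, ∀ v, w i (T v) = w i v)
    (hF : ∀ i ∈ s, ∀ v, F i (T v) = ee ((w i v : ℝ) / N) * F i v)
    (x : ℕ → (List P →₀ ℚ))
    (hint : ∀ j ≤ 2 * s.card, ∀ l, ∃ z : ℤ, x j l = z)
    (hlen : ∀ j ≤ 2 * s.card, ∀ l ∈ (x j).support, l.length = j + 1)
    (hD : ∀ j < 2 * s.card,
      bd P ℚ (x (j + 1)) = (-1 : ℚ) ^ (j + 1) • dd (tm ℚ T) N (j + 1) (x j))
    (hgood : ∀ j ≤ 2 * s.card, ∀ l ∈ (x j).support, ∃ i ∈ s, ∀ v ∈ l, ∀ v' ∈ l,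
      w i v = w i v' ∧ 0 < (F i v * (starRingEnd ℂ) (F i v')).re) :
    ∃ z : ℤ, eps P ℚ (x 0) = z ∧ (p : ℤ) ^ J ∣ (p : ℤ) ^ (∑ i ∈ s, a i) * z := by
  let z : ℕ → (List P →₀ ℤ) := fun j => Finsupp.mapRange Rat.num rfl (x j)
  have hz : ∀ j ≤ 2 * s.card, mp P (Int.castRingHom ℚ) (z j) = x j := by
    intro j hj
    ext l
    obtain ⟨c, hc⟩ := hint j hj l
    simp [mp_apply, z, hc]
  have hinj : Function.Injective (mp P (Int.castRingHom ℚ)) := by
    intro u v h
    ext l
    have := congrArg (fun y => y l) h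
    simpa [mp_apply] using this
  have hzD : ∀ j < 2 * s.card,
      bd P ℤ (z (j + 1)) = (-1 : ℤ) ^ (j + 1) • dd (tm ℤ T) N (j + 1) (z j) := by
    intro j hj
    apply hinj
    rw [← bd_mp, mp_smul, ← dd_mp, hz _ (by omega), hz _ (by omega), hD j hj]
    simp
  have hs : ∀ j, (mp P (Int.castRingHom (ZMod (p ^ J))) (z j)).support ⊆ (x j).support :=
    fun j => (mp_supp _ _).trans Finsupp.support_mapRange
  have key := cut (Λ := ZMod (p ^ J)) T N hN0 hT ((ZMod.natCast_eq_zero_iff _ _).2 hN) hp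
    (J := J) (by rw [← Nat.cast_pow, ZMod.natCast_self]) s a w F hw hwT hF
    (fun j => mp P (Int.castRingHom (ZMod (p ^ J))) (z j))
    (fun j hj l hl => hlen j hj l (hs j hl))
    (fun j hj => by
      rw [bd_mp, dd_mp, hzD j hj, mp_smul]
      simp)
    (fun j hj l hl => hgood j hj l (hs j hl))
  refine ⟨eps P ℤ (z 0), ?_, ?_⟩
  · rw [← hz 0 (by omega), eps_mp]
    rfl
  · rw [eps_mp] at key
    have := (ZMod.intCast_zmod_eq_zero_iff_dvd
      ((p : ℤ) ^ (∑ i ∈ s, a i) * eps P ℤ (z 0)) (p ^ J)).1 (by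
        push_cast
        exact key)
    exact_mod_cast this

end Pool.Agent.Lib.MP_7903c7_al.TQ
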