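import Pool.Agent.Lib.MP_7903c7_al.PT.Main
import Pool.Agent.Lib.MP_7903c7_al.TQ.Abc

set_option autoImplicit false

/-!
A rational trace of an idempotent vanishes on every class of infinite order.
-/

namespace Pool.Agent.Lib.MP_7903c7_al.TQ

open Finset Pool.Agent.Lib.MP_7903c7_al.RF
open scoped Classical Pointwise

variable {G B : Type} [Group G] [Ring B]

theorem prod_mem (E : G → B) (Y : Finset B) (hY : ∀ h, E h ∈ Y) (b : ℤ → Prop) (x : ℤ → G)
    (M : ℕ) :
    ((List.range M).map fun i : ℕ => kap E (b i) ((x i)⁻¹ * x (i + 1))).prod = 0 ∨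
      ((List.range M).map fun i : ℕ => kap E (b i) ((x i)⁻¹ * x (i + 1))).prod ∈
        Y ^ ((range M).filter fun i : ℕ => b i).card := by
  induction M with
  | zero => right; simp
  | succ M ih =>
    rw [List.range_succ, List.map_append, List.prod_append, range_add_one, filter_insert]
    simp only [List.map_cons, List.map_nil, List.prod_cons, List.prod_nil, mul_one]
    rcases ih with h | h
    · left
      rw [h, zero_mul]
    by_cases hb : b M
    · right
      rw [if_pos hb, card_insert_of_notMem (by simp), pow_succ]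
      refine mul_mem_mul h ?_
      unfold kap
      rw [if_pos hb]
      exact hY _
    · rw [if_neg hb]
      generalize ((List.range M).map fun i : ℕ => kap E (b i) ((x i)⁻¹ * x (i + 1))).prod = y at h
      unfold kap
      rw [if_neg hb]
      split_ifs
      · right
        rwa [mul_one]
      · left
        rw [mul_zero]

theorem core (t : B →+ ℚ) (ht : ∀ a b, t (a * b) = t (b * a)) (E : G → B) (U : Finset G)
    (hU : ∀ h, h ∉ U → E h = 0) (hE : ∀ h, ∑ u ∈ U, E u * E (u⁻¹ * h) = E h) {g : G}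
    (hg : orderOf g = 0) : ∑ h ∈ U.filter fun h => IsConj h g, t (E h) = 0 := by
  let S0 : Finset G := insert 1 U
  have h1 : (1 : G) ∈ S0 ∪ S0⁻¹ := mem_union_left _ (mem_insert_self _ _)
  have hS : ∀ u ∈ S0 ∪ S0⁻¹, u⁻¹ ∈ S0 ∪ S0⁻¹ := fun u hu => by
    rcases mem_union.mp hu with h | h
    · exact mem_union_right _ (inv_mem_inv h)
    · exact mem_union_left _ (by simpa using inv_mem_inv h)
  obtain ⟨x, hx, H⟩ := PT.cover Nat.prime_two hg h1 hS
  let Y : Finset B := insert 1 (insert 0 (U.image E))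
  have hY : ∀ h, E h ∈ Y := fun h => by
    by_cases hh : h ∈ U
    · exact mem_insert_of_mem (mem_insert_of_mem (mem_image_of_mem _ hh))
    · rw [hU h hh]
      exact mem_insert_of_mem (mem_insert_self _ _)
  obtain ⟨D, hD0, hD⟩ : ∃ D : ℕ, 0 < D ∧ ∀ y ∈ Y ^ (12 * x + 1), ∃ z : ℤ, (D : ℚ) * t y = z := by
    refine ⟨∏ y ∈ Y ^ (12 * x + 1), (t y).den, prod_pos fun y _ => (t y).den_pos, fun y hy => ?_⟩
    obtain ⟨c, hc⟩ := dvd_prod_of_mem (fun y => (t y).den) hy
    refine ⟨c * (t y).num, ?_⟩
    rw [hc]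
    push_cast
    rw [← Rat.den_mul_eq_num]
    ring
  let d : Dat G B ℚ := ⟨g, Subgroup.centralizer {g}, (AddMonoidHom.mulLeft (D : ℚ)).comp t, E, U,
    fun a b => by simp [ht a b], Subgroup.mem_centralizer_singleton_iff.2 rfl,
    fun c hc => Subgroup.mem_centralizer_singleton_iff.1 hc, by simp, hU, hE⟩
  have key : ∀ J : ℕ, ∃ z : ℤ, d.tr = z ∧ (2 : ℤ) ^ J ∣ 2 ^ (3 * x) * z := by
    intro J
    obtain ⟨n0, hn0, hc, ι, s, a, w, F, hs, ha, hw, hF, hcov⟩ := H _ (pow_pos two_pos J)
    obtain ⟨z, hz, hdvd⟩ := abc_cover d (S0 ∪ S0⁻¹)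
      (fun u hu => mem_union_left _ (mem_insert_of_mem hu)) Nat.prime_two (J := J)
      (40 * x * n0) (40 * x) (by positivity) (hc.mul_left _) s a w F (by omega)
      (fun M b y hb => by
        rcases prod_mem E Y hY b y M with h | h
        · exact ⟨0, by
            show (D : ℚ) * t _ = _
            rw [h]
            simp⟩
        · exact hD _ (pow_subset_pow_right (mem_insert_self _ _) (by omega) h))
      hw hF fun γ hγ => (hcov γ hγ trivial).imp fun i hi => ⟨hi.1, fun γ' γ'' k1 k2 k3 k4 =>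
        hi.2 γ' γ'' k1 k2 (k3.trans (by omega)) (k4.trans (by omega))⟩
    refine ⟨z, by simpa [d] using hz, hdvd.trans ?_⟩
    exact mul_dvd_mul_right (pow_dvd_pow _ ha) z
  obtain ⟨z, hz, -⟩ := key 0
  have hz0 : (2 : ℤ) ^ (3 * x) * z = 0 := by
    obtain ⟨z', hz', hdvd⟩ := key ((2 : ℤ) ^ (3 * x) * z).natAbs
    have e : z' = z := by exact_mod_cast hz'.symm.trans hz
    rw [e] at hdvd
    refine Int.eq_zero_of_abs_lt_dvd hdvd ?_
    rw [Int.abs_eq_natAbs]
    exact_mod_cast Nat.lt_two_pow_self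
  have h0 : d.tr = 0 := by
    rw [hz, (mul_eq_zero.1 hz0).resolve_left (by positivity)]
    rfl
  have h2 : d.tr = D * ∑ h ∈ U.filter fun h => IsConj h g, t (E h) := by
    rw [mul_sum]
    rfl
  rw [h2] at h0
  exact (mul_eq_zero.1 h0).resolve_left (by exact_mod_cast hD0.ne')

/-- The matrix form. -/
theorem core_mat {I : Type} [Fintype I] [DecidableEq I] (t : B →+ ℚ)
    (ht : ∀ a b, t (a * b) = t (b * a)) {A : Matrix I I (MonoidAlgebra B G)} (hA : A * A = A)
    {g : G} (hg : orderOf g = 0) :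
    t (∑ i, ∑ h ∈ (A i i).coeff.support with IsConj h g, (A i i).coeff h) = 0 := by
  let U : Finset G := univ.biUnion fun q : I × I => (A q.1 q.2).coeff.support
  have hsub : ∀ i j, (A i j).coeff.support ⊆ U := fun i j h hh =>
    mem_biUnion.mpr ⟨(i, j), mem_univ _, hh⟩
  have key := core (B := Matrix I I B) (t.comp (Matrix.traceAddMonoidHom I B)) (fun X Y => by
      simp only [AddMonoidHom.comp_apply, Matrix.traceAddMonoidHom_apply, Matrix.trace,
        Matrix.diag_apply, Matrix.mul_apply, map_sum]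
      rw [sum_comm]
      exact sum_congr rfl fun i _ => sum_congr rfl fun j _ => ht _ _)
    (fun h => Matrix.of fun i j => (A i j).coeff h) U
    (fun h hh => by
      ext i j
      exact Finsupp.notMem_support_iff.1 fun h' => hh (hsub i j h'))
    (fun h => by
      ext i j
      conv_rhs => rw [Matrix.of_apply, ← hA, Matrix.mul_apply, MonoidAlgebra.coeff_sum,
        Finsupp.finsetSum_apply]
      simp only [Matrix.sum_apply, Matrix.mul_apply, Matrix.of_apply]
      rw [sum_comm]
      refine sum_congr rfl fun k _ => ?_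
      rw [MonoidAlgebra.coeff_mul_apply_left, Finsupp.sum]
      exact (sum_subset (hsub i k) fun u _ hu => by
        rw [Finsupp.notMem_support_iff.1 hu, zero_mul]).symm) hg
  rw [← key]
  simp only [AddMonoidHom.comp_apply, Matrix.traceAddMonoidHom_apply, Matrix.trace,
    Matrix.diag_apply, Matrix.of_apply, map_sum]
  rw [sum_comm]
  refine sum_congr rfl fun i _ => sum_subset (filter_subset_filter _ (hsub i i)) fun h h1 h2 => ?_
  rw [Finsupp.notMem_support_iff.1 fun h' => h2 (mem_filter.2 ⟨h', (mem_filter.1 h1).2⟩), map_zero]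

end Pool.Agent.Lib.MP_7903c7_al.TQ
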